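import Pool.Agent.Helper23.WC.Spec

/-!
Part BIN: the differential is surjective at a suitable point.
-/

set_option autoImplicit false

namespace Pool.Agent.Helper38.WL

open Pool.Agent.Helper23.WC Pool.Agent.Helper23.CC Polynomial

theorem natDegree_lin {K : Type} [Field K] (a b : K) :
    (C a * X + C b : Polynomial K).natDegree ≤ 1 := by
  refine (natDegree_add_le _ _).trans ?_
  simp only [natDegree_C, max_le_iff]
  refine ⟨?_, Nat.zero_le _⟩
  refine (natDegree_C_mul_le a X).trans ?_
  rw [natDegree_X]

theorem main (hALG : Pool.Agent.Helper23.CC.St_ALG) : St_BIN := by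
  classical
  intro K _ _ N r s e D he hD ι hι hle hsum
  -- the index of a block
  have hex : ∀ a : Fin s, a ∈ Set.range ι → ∃ i, ι i = a := fun a h => h
  let inv : Fin s → Option (Fin r) := fun a => if h : ∃ i, ι i = a then some h.choose else none
  have hinv : ∀ i, inv (ι i) = some i := by
    intro i
    have h : ∃ j, ι j = ι i := ⟨i, rfl⟩
    simp only [inv, dif_pos h]
    rw [hι h.choose_spec]
  let Z : Finset (Fin s) := Finset.univ.filter fun a => ∀ i, ι i ≠ a
  have hZ : ∀ a, a ∉ Z → ∃ i, ι i = a := by
    intro a ha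
    by_contra hcon
    push Not at hcon
    exact ha (Finset.mem_filter.2 ⟨Finset.mem_univ _, hcon⟩)
  have hZ' : ∀ i, ι i ∉ Z := fun i h => (Finset.mem_filter.1 h).2 i rfl
  let h : Fin s → Polynomial K := fun a =>
    match inv a with
    | some i => (X - C ((i : ℕ) : K)) ^ (D a - e i)
    | none => 1
  have hh : ∀ i, h (ι i) = (X - C ((i : ℕ) : K)) ^ (D (ι i) - e i) := by
    intro i
    simp only [h, hinv i]
  have hmon : ∀ i, (h (ι i)).Monic := fun i => by
    rw [hh]
    exact (monic_X_sub_C _).pow _
  have hdeg : ∀ i, (h (ι i)).natDegree = D (ι i) - e i := fun i => by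
    rw [hh, natDegree_pow, natDegree_X_sub_C, mul_one]
  have hsumZ : ∑ a ∈ Zᶜ, (h a).natDegree = ∑ i, (D (ι i) - e i) := by
    have h1 : Zᶜ = Finset.univ.image ι := by
      ext a
      rw [Finset.mem_compl, Finset.mem_image]
      constructor
      · intro ha
        obtain ⟨i, hi⟩ := hZ a ha
        exact ⟨i, Finset.mem_univ _, hi⟩
      · rintro ⟨i, -, rfl⟩
        exact hZ' i
    rw [h1, Finset.sum_image fun i _ j _ hij => hι hij]
    exact Finset.sum_congr rfl fun i _ => hdeg i
  have hcount : ∑ a ∈ Z, (D a + 1) + ∑ a ∈ Zᶜ, (h a).natDegree ≤ 2 * N := by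
    rw [hsumZ]
    have h1 : ∑ a, (D a + 1) = ∑ a ∈ Z, (D a + 1) + ∑ a ∈ Zᶜ, (D a + 1) :=
      (Finset.sum_add_sum_compl Z _).symm
    have h2 : ∑ a ∈ Zᶜ, (D a + 1) = ∑ i, (D (ι i) + 1) := by
      have h1 : Zᶜ = Finset.univ.image ι := by
        ext a
        rw [Finset.mem_compl, Finset.mem_image]
        constructor
        · intro ha
          obtain ⟨i, hi⟩ := hZ a ha
          exact ⟨i, Finset.mem_univ _, hi⟩
        · rintro ⟨i, -, rfl⟩
          exact hZ' i
      rw [h1, Finset.sum_image fun i _ j _ hij => hι hij]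
    have h3 : ∑ i, (D (ι i) + 1) = ∑ i, (D (ι i) - e i) + ∑ i, (e i + 1) := by
      rw [← Finset.sum_add_distrib]
      refine Finset.sum_congr rfl fun i _ => ?_
      have := hle i
      omega
    omega
  obtain ⟨B, hB1, hB2⟩ := hALG K (Fin s) D Z h N hD (fun a ha => by
      obtain ⟨i, rfl⟩ := hZ a ha
      exact ⟨hmon i, by rw [hdeg]; omega⟩)
    (fun a b ha hb hab => by
      obtain ⟨i, rfl⟩ := hZ a ha
      obtain ⟨j, rfl⟩ := hZ b hb
      rw [hh, hh]
      refine IsCoprime.pow (isCoprime_X_sub_C_of_isUnit_sub ?_)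
      have hij : i ≠ j := fun h => hab (by rw [h])
      refine (sub_ne_zero.2 fun h => hij ?_).isUnit
      exact Fin.ext (Nat.cast_injective h)) hcount
  have hBd : ∀ a j, (B a j).natDegree + 1 ≤ D a := by
    intro a j
    by_cases h0 : B a j = 0
    · rw [h0, natDegree_zero]
      have := hD a
      omega
    · have := (natDegree_lt_iff_degree_lt h0).2 (hB1 a j)
      omega
  refine ⟨fun a c => Sum.elim (fun j => B a j) (fun i => if ι i = a then h a else 0) c, ?_, ?_⟩
  · rintro a (j | i)
    · right
      exact hBd a j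
    · simp only [Sum.elim_inr]
      split_ifs with hi
      · right
        subst hi
        rw [hdeg]
        have := hle i
        simp only [om, Sum.elim_inr]
        omega
      · left; rfl
  · intro f hf
    obtain ⟨lam, mu, h1, h2⟩ := hB2 f hf
    choose! g hg using h2
    have hgd : ∀ i, (g (ι i)).natDegree ≤ e i := by
      intro i
      by_cases h0 : g (ι i) = 0
      · rw [h0, natDegree_zero]
        exact Nat.zero_le _
      · have h3 : (f (ι i) - ∑ j, (C (lam j) * X + C (mu j)) * B (ι i) j).natDegree ≤ D (ι i) := by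
          refine (natDegree_sub_le _ _).trans (max_le (hf _) ?_)
          refine natDegree_sum_le_of_forall_le _ _ fun j _ => ?_
          refine (natDegree_mul_le_of_le (natDegree_lin _ _) le_rfl).trans ?_
          have := hBd (ι i) j
          omega
        rw [hg (ι i) (hZ' i), (hmon i).natDegree_mul' h0, hdeg] at h3
        have := hle i
        omega
    refine ⟨fun c => Sum.elim (fun j => C (lam j) * X + C (mu j)) (fun i => g (ι i)) c, ?_, ?_⟩
    · rintro (j | i)
      · exact natDegree_lin _ _
      · exact hgd i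
    · intro a
      rw [Fintype.sum_sum_type]
      simp only [Sum.elim_inl, Sum.elim_inr]
      by_cases ha : a ∈ Z
      · have h4 : ∑ i, g (ι i) * (if ι i = a then h a else 0) = 0 := by
          refine Finset.sum_eq_zero fun i _ => ?_
          rw [if_neg ((Finset.mem_filter.1 ha).2 i), mul_zero]
        rw [h4, add_zero]
        exact h1 a ha
      · obtain ⟨i, rfl⟩ := hZ a ha
        have h4 : ∑ i', g (ι i') * (if ι i' = ι i then h (ι i) else 0) = g (ι i) * h (ι i) := by
          rw [Finset.sum_eq_single i]
          · rw [if_pos rfl]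
          · intro i' _ hne
            rw [if_neg fun h => hne (hι h), mul_zero]
          · intro h
            exact absurd (Finset.mem_univ _) h
        rw [h4, mul_comm (g (ι i)), ← hg (ι i) (hZ' i)]
        ring

end Pool.Agent.Helper38.WL
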